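import Mathlib
import Pool.Agent.Helper26.AF.Defs
import Pool.Agent.Helper26.AF.Base
import Pool.Agent.Helper26.AF.Goals

/-!
Project AF, packet CHE: Chebyshev for the number of edges of the binomial random graph.
-/

namespace Pool.Agent.Helper88.AF

open Finset Pool.Agent.Helper26.AF

open Classical in
/-- The indicator of the edge `e`. -/
noncomputable def X {n : ℕ} (e : Sym2 (Fin n)) (G : SimpleGraph (Fin n)) : ℝ :=
  if e ∈ G.edgeSet then 1 else 0

lemma ne_eq_sum {n : ℕ} (G : SimpleGraph (Fin n)) :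
    (ne G : ℝ) = ∑ e ∈ EV (Fin n), X e G := by
  classical
  have h1 : ne G = #((EV (Fin n)).filter (fun e => e ∈ G.edgeSet)) := by
    rw [ne, Nat.card_eq_fintype_card, ← Set.toFinset_card]
    congr 1
    ext e
    simp only [Set.mem_toFinset, mem_filter, mem_EV]
    constructor
    · intro h
      exact ⟨G.not_isDiag_of_mem_edgeSet h, h⟩
    · intro h
      exact h.2
  rw [h1]
  simp [X]

lemma EE_X (hCYL : StmtCYL) {n : ℕ} (p : ℝ) {e : Sym2 (Fin n)} (he : e ∈ EV (Fin n)) :
    EE p (X e) = p := by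
  classical
  have h := hCYL (Fin n) p {e} ∅ (by simp) (by simpa using mem_EV.1 he)
  simp only [mem_singleton, forall_eq, notMem_empty, IsEmpty.forall_iff, implies_true, and_true,
    card_singleton, pow_one, card_empty, pow_zero, mul_one] at h
  refine Eq.trans ?_ h
  rw [Pr]
  congr 1
  funext G
  by_cases h1 : e ∈ G.edgeSet <;> simp [X, h1]

lemma EE_XX (hCYL : StmtCYL) {n : ℕ} (p : ℝ) {e f : Sym2 (Fin n)} (he : e ∈ EV (Fin n))
    (hf : f ∈ EV (Fin n)) (hef : e ≠ f) :
    EE p (fun G => X e G * X f G) = p ^ 2 := by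
  classical
  have h := hCYL (Fin n) p {e, f} ∅ (by simp) (by
    intro x hx
    simp only [union_empty, mem_insert, mem_singleton] at hx
    rcases hx with rfl | rfl
    · exact mem_EV.1 he
    · exact mem_EV.1 hf)
  rw [card_pair hef] at h
  simp only [mem_insert, mem_singleton, forall_eq_or_imp, forall_eq, notMem_empty,
    IsEmpty.forall_iff, implies_true, and_true, card_empty, pow_zero, mul_one] at h
  refine Eq.trans ?_ h
  rw [Pr]
  congr 1
  funext G
  by_cases h1 : e ∈ G.edgeSet <;> by_cases h2 : f ∈ G.edgeSet <;> simp [X, h1, h2]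

lemma EE_const {n : ℕ} (p c : ℝ) : EE (V := Fin n) p (fun _ => c) = c := by
  have := EE_smul (V := Fin n) p c (fun _ => 1)
  rw [EE_one] at this
  simpa using this

lemma EE_cov (hCYL : StmtCYL) {n : ℕ} (p : ℝ) {e f : Sym2 (Fin n)} (he : e ∈ EV (Fin n))
    (hf : f ∈ EV (Fin n)) :
    EE p (fun G => (X e G - p) * (X f G - p)) = if e = f then p * (1 - p) else 0 := by
  have h1 : (fun G : SimpleGraph (Fin n) => (X e G - p) * (X f G - p))
      = fun G => (X e G * X f G - p * X e G) - (p * X f G - p * p) := by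
    funext G; ring
  rw [h1, EE_sub, EE_sub, EE_sub, EE_smul, EE_smul, EE_const, EE_X hCYL p he, EE_X hCYL p hf]
  split_ifs with h
  · subst h
    have h2 : (fun G : SimpleGraph (Fin n) => X e G * X e G) = X e := by
      funext G
      by_cases h1 : e ∈ G.edgeSet <;> simp [X, h1]
    rw [h2, EE_X hCYL p he]
    ring
  · rw [EE_XX hCYL p he hf h]
    ring

theorem goalCHE (hCYL : Pool.Agent.Helper26.AF.StmtCYL) : Pool.Agent.Helper26.AF.StmtCHE := by
  classical
  intro n p t hp0 hp1 ht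
  rw [le_div_iff₀ (by positivity), mul_comm]
  set N : ℕ := n.choose 2 with hN
  have hcard : #(EV (Fin n)) = N := by rw [card_EV, Fintype.card_fin]
  refine le_trans (Pr_markov hp0 hp1 (f := fun G : SimpleGraph (Fin n) =>
    ((ne G : ℝ) - p * (N : ℕ)) ^ 2) (fun G => sq_nonneg _) ?_) ?_
  · intro G hG
    rw [← sq_abs ((ne G : ℝ) - p * (N : ℕ))]
    exact pow_le_pow_left₀ ht.le hG 2
  · have h1 : (fun G : SimpleGraph (Fin n) => ((ne G : ℝ) - p * (N : ℕ)) ^ 2)
        = fun G => ∑ e ∈ EV (Fin n), ∑ f ∈ EV (Fin n), (X e G - p) * (X f G - p) := by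
      funext G
      have h2 : (ne G : ℝ) - p * (N : ℕ) = ∑ e ∈ EV (Fin n), (X e G - p) := by
        rw [sum_sub_distrib, ← ne_eq_sum, sum_const, hcard, nsmul_eq_mul, mul_comm p]
      rw [h2, sq, sum_mul_sum]
    rw [h1, EE_sum]
    simp_rw [EE_sum]
    have h3 : ∑ e ∈ EV (Fin n), ∑ f ∈ EV (Fin n),
        EE p (fun G => (X e G - p) * (X f G - p))
        = ∑ e ∈ EV (Fin n), ∑ f ∈ EV (Fin n), (if e = f then p * (1 - p) else 0) :=
      sum_congr rfl fun e he => sum_congr rfl fun f hf => EE_cov hCYL p he hf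
    rw [h3]
    have h4 : ∑ e ∈ EV (Fin n), ∑ f ∈ EV (Fin n), (if e = f then p * (1 - p) else 0)
        = ∑ e ∈ EV (Fin n), p * (1 - p) := by
      refine sum_congr rfl fun e he => ?_
      rw [sum_ite_eq, if_pos he]
    rw [h4, sum_const, hcard, nsmul_eq_mul]
    have hN0 : (0 : ℝ) ≤ (N : ℝ) := Nat.cast_nonneg N
    nlinarith [mul_nonneg (mul_nonneg hp0 hp0) hN0]

end Pool.Agent.Helper88.AF
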